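import Mathlib

/-! The completions of the rational numbers. -/

namespace BB37

/-- a place of the rationals: `none` is the real place, `some p` the place of the prime `p` -/
abbrev Place : Type := Option Nat.Primes

instance primesFact (p : Nat.Primes) : Fact (p : ℕ).Prime := ⟨p.2⟩

/-- the completion of the rationals at a place -/
def Kv : Place → Type
  | none => ℝ
  | some p => ℚ_[(p : ℕ)]

noncomputable instance (v : Place) : Field (Kv v) :=
  match v with
  | none => inferInstanceAs (Field ℝ)
  | some p => inferInstanceAs (Field ℚ_[(p : ℕ)])

instance (v : Place) : CharZero (Kv v) :=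
  match v with
  | none => inferInstanceAs (CharZero ℝ)
  | some p => inferInstanceAs (CharZero ℚ_[(p : ℕ)])

/-- the prime 2 -/
def two : Nat.Primes := ⟨2, Nat.prime_two⟩

noncomputable example (v : Place) : Algebra ℚ (Kv v) := inferInstance

end BB37
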