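import Pool.Agent.Lib.MP_bb37eb_nt.Core.H2
import Pool.Agent.Lib.MP_bb37eb_nt.Core.Places

/-! Unramified 2-primary classes, admissible families, global families. -/

namespace BB37

/-- `theta 0 = 0`, `theta (k+1)^2 = 2 + theta k` in the algebraic closure of the rationals -/
def IsTheta (θ : ℕ → Kb ℚ) : Prop := θ 0 = 0 ∧ ∀ k, θ (k + 1) ^ 2 = 2 + θ k

/-- the classes of `H2 K` which are split by `K(theta k)` for some `k` -/
def InU (K : Type) [Field K] [Algebra ℚ K] (x : H2 K) : Prop :=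
  ∃ (c : Z2 K) (k : ℕ) (θ : ℕ → Kb ℚ) (u : GK K → (Kb K)ˣ), cls c = x ∧ IsTheta θ ∧
    Smooth1 K u ∧ ∀ g h : GK K, g (emb ℚ K (θ k)) = emb ℚ K (θ k) →
      h (emb ℚ K (θ k)) = emb ℚ K (θ k) → c.1 (g, h) = g • u h * u g / u (g * h)

/-- admissible families -/
structure Adm (b : ∀ v : Place, H2 (Kv v)) : Prop where
  fin : {v | b v ≠ 1}.Finite
  odd : ∀ p : Nat.Primes, p ≠ two → InU (Kv (some p)) (b (some p))
  at2 : ∃ m : ℕ, b (some two) ^ 2 ^ m = 1

/-- a family is global -/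
def Glob (b : ∀ v : Place, H2 (Kv v)) : Prop := ∃ γ : H2 ℚ, ∀ v, res ℚ (Kv v) γ = b v

open Classical in
/-- the family concentrated at one place -/
noncomputable def single (v : Place) (x : H2 (Kv v)) : ∀ w : Place, H2 (Kv w) :=
  Function.update 1 v x

end BB37
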