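import Pool.Agent.Lib.MP_bb37eb_nt.Core.Curve

/-! The classes attached to a tower of 2-isogenies. -/

namespace BB37

/-- the composite of the first `d` isogenies of a tower `b 0, b 1, ...` (used for
`b (d+1) = -4 * b d`) -/
noncomputable def downF (b : ℕ → ℚ) (K : Type) [Field K] [Algebra ℚ K] :
    ∀ d : ℕ, Pt (b 0) K → Pt (b d) K
  | 0, P => P
  | d + 1, P => isoF (b d) (b (d + 1)) (downF b K d P)

section

variable (K : Type) [Field K] [Algebra ℚ K]

/-- the inclusion of a field in its algebraic closure -/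
noncomputable def incl : K →ₐ[ℚ] Kb K := (Algebra.ofId K (Kb K)).restrictScalars ℚ

/-- the action of the Galois group on points -/
noncomputable def gact (b : ℚ) (g : GK K) (P : Pt b (Kb K)) : Pt b (Kb K) :=
  mapF b ((g : Kb K →ₐ[K] Kb K).restrictScalars ℚ) P

end

/-- a smooth 1-cocycle of `G_Q` with values in the dual `Hom(N, Qbar^*)` of the kernel `N` of the
composite of the first `d` isogenies -/
structure Xi (b : ℕ → ℚ) (d : ℕ) where
  /-- the cocycle; its values outside the kernel are irrelevant -/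
  f : GK ℚ → Pt (b 0) (Kb ℚ) → (Kb ℚ)ˣ
  smooth : Smooth1 ℚ f
  add : ∀ g P Q, downF b (Kb ℚ) d P = 0 → downF b (Kb ℚ) d Q = 0 → f g (P + Q) = f g P * f g Q
  coc : ∀ g h Q, downF b (Kb ℚ) d Q = 0 →
    f (g * h) (gact ℚ (b 0) g Q) = f g (gact ℚ (b 0) g Q) * g • f h Q

/-- `c` is a cocycle representing the value of the class of `xi` at the point `e`: if
`a` divides `e` and `nu g = g a - a`, then `c (g,h) = xi_g (g (nu h))`. -/
def IsAlpha {b : ℕ → ℚ} {d : ℕ} (ξ : Xi b d) (K : Type) [Field K] [Algebra ℚ K]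
    (e : Pt (b d) K) (c : Z2 K) : Prop :=
  ∃ (a : Pt (b 0) (Kb K)) (ν : GK K → Pt (b 0) (Kb ℚ)),
    downF b (Kb K) d a = mapF (b d) (incl K) e ∧
    (∀ g, downF b (Kb ℚ) d (ν g) = 0 ∧ mapF (b 0) (emb ℚ K) (ν g) = gact K (b 0) g a - a) ∧
    ∀ g h, c.1 (g, h) = embU ℚ K (ξ.f (resG ℚ K g) (gact ℚ (b 0) (resG ℚ K g) (ν h)))

open Classical in
/-- the quaternion cochain `(-1)^(chi_a(g) chi_b(h))` -/
noncomputable def qfun {K : Type} [Field K] (a b : K) : GK K × GK K → (Kb K)ˣ := fun p =>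
  if (∃ r : Kb K, r ^ 2 = algebraMap K (Kb K) a ∧ p.1 r ≠ r) ∧
    (∃ r : Kb K, r ^ 2 = algebraMap K (Kb K) b ∧ p.2 r ≠ r) then -1 else 1

/-- `x` is the class of the quaternion algebra `(a, b)` -/
def IsQuat {K : Type} [Field K] (a b : K) (x : H2 K) : Prop :=
  ∃ c : Z2 K, c.1 = qfun a b ∧ cls c = x

end BB37
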