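import Pool.Agent.Lib.MP_bb37eb_nt.Core.H2

/-! The curves `y^2 = x^3 + b x`, their 2-isogenies and the classes attached to a tower. -/

namespace BB37

open WeierstrassCurve

/-- the curve `y^2 = x^3 + b x` over the rationals -/
def Wq (b : ℚ) : WeierstrassCurve ℚ := ⟨0, 0, 0, b, 0⟩

/-- the points of `y^2 = x^3 + b x` over a field `K` of characteristic zero -/
def Pt (b : ℚ) (K : Type) [Field K] [Algebra ℚ K] : Type :=
  ((Wq b).baseChange K).toAffine.Point

noncomputable instance (b : ℚ) (K : Type) [Field K] [Algebra ℚ K] : AddCommGroup (Pt b K) :=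
  letI := Classical.decEq K
  inferInstanceAs (AddCommGroup ((Wq b).baseChange K).toAffine.Point)

section

variable (b : ℚ) (K : Type) [Field K] [Algebra ℚ K]

/-- the equation of the curve -/
def OnCurve (x y : K) : Prop := y ^ 2 = x ^ 3 + algebraMap ℚ K b * x

variable {K}

theorem equation_iff {x y : K} :
    ((Wq b).baseChange K).toAffine.Equation x y ↔ OnCurve b K x y := by
  rw [Affine.equation_iff, OnCurve]
  simp [Wq, WeierstrassCurve.baseChange]

theorem nonsingular_of (hb : b ≠ 0) {x y : K} (h : OnCurve b K x y) :
    ((Wq b).baseChange K).toAffine.Nonsingular x y := by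
  rw [Affine.nonsingular_iff']
  refine ⟨(equation_iff b).2 h, ?_⟩
  have hb' : algebraMap ℚ K b ≠ 0 :=
    (map_ne_zero_iff _ (algebraMap ℚ K).injective).2 hb
  simp only [Wq, WeierstrassCurve.baseChange, map_a₁, map_a₂, map_a₃, map_a₄, map_zero, zero_mul,
    mul_zero, add_zero, zero_sub, ne_eq, neg_eq_zero]
  by_contra hc
  push Not at hc
  obtain ⟨h1, h2⟩ := hc
  have : CharZero K := charZero_of_injective_algebraMap (algebraMap ℚ K).injective
  have hy : y = 0 := by
    have h3 : (2 : K) ≠ 0 := two_ne_zero
    exact (mul_eq_zero.1 h2).resolve_left h3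
  rw [OnCurve, hy] at h
  have h4 : x * (x ^ 2 + algebraMap ℚ K b) = 0 := by linear_combination -h
  rcases mul_eq_zero.1 h4 with h5 | h5
  · rw [h5] at h1
    apply hb'
    linear_combination h1
  · apply hb'
    have h6 : (2 : K) * algebraMap ℚ K b = 0 := by linear_combination 3 * h5 - h1
    exact (mul_eq_zero.1 h6).resolve_left two_ne_zero

theorem onCurve_of {x y : K} (h : ((Wq b).baseChange K).toAffine.Nonsingular x y) :
    OnCurve b K x y :=
  (equation_iff b).1 h.1

/-- the points of the Mathlib curve are the points -/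
def inj (P : ((Wq b).baseChange K).toAffine.Point) : Pt b K := P

open Classical in
/-- the affine point with coordinates `x`, `y` (the point `0` if this is not a point) -/
noncomputable def mk (x y : K) : Pt b K :=
  if h : ((Wq b).baseChange K).toAffine.Nonsingular x y then inj b (Affine.Point.some x y h) else 0

/-- the first coordinate (zero at the point at infinity) -/
def xc : Pt b K → K
  | Affine.Point.zero => 0
  | Affine.Point.some x _ _ => x

/-- the second coordinate (zero at the point at infinity) -/
def yc : Pt b K → K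
  | Affine.Point.zero => 0
  | Affine.Point.some _ y _ => y

theorem mk_xy {P : Pt b K} (hP : P ≠ 0) : mk b (xc b P) (yc b P) = P := by
  cases P with
  | zero => exact absurd rfl hP
  | some x y h =>
    have e : ((Wq b).baseChange K).toAffine.Nonsingular
        (xc b (inj b (Affine.Point.some x y h))) (yc b (inj b (Affine.Point.some x y h))) := h
    exact dif_pos e

theorem xc_mk (hb : b ≠ 0) {x y : K} (h : OnCurve b K x y) : xc b (mk b x y) = x := by
  rw [mk, dif_pos (nonsingular_of b hb h)]
  rfl

theorem yc_mk (hb : b ≠ 0) {x y : K} (h : OnCurve b K x y) : yc b (mk b x y) = y := by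
  rw [mk, dif_pos (nonsingular_of b hb h)]
  rfl

theorem mk_ne_zero (hb : b ≠ 0) {x y : K} (h : OnCurve b K x y) : mk b x y ≠ 0 := by
  rw [mk, dif_pos (nonsingular_of b hb h)]
  exact Affine.Point.some_ne_zero _

theorem onCurve_xy {P : Pt b K} (hP : P ≠ 0) : OnCurve b K (xc b P) (yc b P) := by
  cases P with
  | zero => exact absurd rfl hP
  | some x y h => exact onCurve_of b h

/-- the rational point of order two -/
noncomputable def T : Pt b K := mk b 0 0

open Classical in
/-- the 2-isogeny from `y^2 = x^3 + b x` to `y^2 = x^3 + b' x`, to be used for `b' = -4 b` -/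
noncomputable def isoF (b' : ℚ) (P : Pt b K) : Pt b' K :=
  if xc b P = 0 then 0 else
    mk b' (yc b P ^ 2 / xc b P ^ 2) (yc b P * (algebraMap ℚ K b - xc b P ^ 2) / xc b P ^ 2)

variable {K' : Type} [Field K'] [Algebra ℚ K']

/-- functoriality in the field -/
noncomputable def mapF (f : K →ₐ[ℚ] K') (P : Pt b K) : Pt b K' :=
  letI := Classical.decEq K
  letI := Classical.decEq K'
  Affine.Point.map (W' := Wq b) f P

end

end BB37
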