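import Mathlib

/-! Smooth Galois cohomology in degree 2 with coefficients in the multiplicative group. -/

namespace BB37

open groupCohomology

/-- algebraic closure (a type synonym without a `CharZero` instance, so that the rational algebra
structure on it is always the one coming from the base field) -/
def Kb (K : Type) [Field K] : Type := AlgebraicClosure K

section Instances

variable (K : Type) [Field K]

noncomputable instance : Field (Kb K) := inferInstanceAs (Field (AlgebraicClosure K))

noncomputable instance instAlgebraKb (R : Type) [CommSemiring R] [Algebra R K] :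
    Algebra R (Kb K) :=
  inferInstanceAs (Algebra R (AlgebraicClosure K))

instance instTowerKb (R : Type) [CommSemiring R] [Algebra R K] : IsScalarTower R K (Kb K) :=
  inferInstanceAs (IsScalarTower R K (AlgebraicClosure K))

instance : IsAlgClosed (Kb K) := inferInstanceAs (IsAlgClosed (AlgebraicClosure K))

instance : Algebra.IsAlgebraic K (Kb K) :=
  inferInstanceAs (Algebra.IsAlgebraic K (AlgebraicClosure K))

instance : IsAlgClosure K (Kb K) := inferInstanceAs (IsAlgClosure K (AlgebraicClosure K))

instance : Normal K (Kb K) := inferInstanceAs (Normal K (AlgebraicClosure K))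

instance [CharZero K] : IsGalois K (Kb K) := inferInstanceAs (IsGalois K (AlgebraicClosure K))

end Instances

/-- not an instance on purpose -/
theorem charZero_Kb (K : Type) [Field K] [CharZero K] : CharZero (Kb K) :=
  inferInstanceAs (CharZero (AlgebraicClosure K))

/-- absolute Galois group -/
abbrev GK (K : Type) [Field K] : Type := Kb K ≃ₐ[K] Kb K

section

variable (K : Type) [Field K]

/-- `g` and `h` agree on `M`. -/
def Agree (M : IntermediateField K (Kb K)) (g h : GK K) : Prop := ∀ x ∈ M, g x = h x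

/-- a function of one Galois variable which factors through a finite quotient -/
def Smooth1 {X : Type} (f : GK K → X) : Prop :=
  ∃ M : IntermediateField K (Kb K), FiniteDimensional K M ∧ ∀ g h, Agree K M g h → f g = f h

/-- a function of two Galois variables which factors through a finite quotient -/
def Smooth2 {X : Type} (f : GK K × GK K → X) : Prop :=
  ∃ M : IntermediateField K (Kb K), FiniteDimensional K M ∧
    ∀ g g' h h', Agree K M g g' → Agree K M h h' → f (g, h) = f (g', h')

/-- smooth 2-cocycles -/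
def Z2 : Subgroup (GK K × GK K → (Kb K)ˣ) where
  carrier := {c | Smooth2 K c ∧ IsMulCocycle₂ c}
  one_mem' := by
    refine ⟨⟨⊥, inferInstance, fun _ _ _ _ _ _ => rfl⟩, ?_⟩
    intro g h j
    simp
  mul_mem' := by
    rintro a b ⟨⟨M, hM, h1⟩, h2⟩ ⟨⟨M', hM', h1'⟩, h2'⟩
    refine ⟨⟨M ⊔ M', inferInstance, ?_⟩, ?_⟩
    · intro g g' h h' hg hh
      have e1 := h1 g g' h h' (fun x hx => hg x (le_sup_left (a := M) hx))
        (fun x hx => hh x (le_sup_left (a := M) hx))
      have e2 := h1' g g' h h' (fun x hx => hg x (le_sup_right (a := M) hx))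
        (fun x hx => hh x (le_sup_right (a := M) hx))
      simp [e1, e2]
    · intro g h j
      have e1 := h2 g h j
      have e2 := h2' g h j
      simp only [Pi.mul_apply, smul_mul']
      rw [mul_mul_mul_comm, e1, e2, mul_mul_mul_comm]
  inv_mem' := by
    rintro a ⟨⟨M, hM, h1⟩, h2⟩
    refine ⟨⟨M, hM, ?_⟩, ?_⟩
    · intro g g' h h' hg hh
      simp [h1 g g' h h' hg hh]
    · intro g h j
      have e1 := h2 g h j
      simp only [Pi.inv_apply, smul_inv']
      rw [← mul_inv, e1, mul_inv]

/-- smooth 2-coboundaries -/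
def B2 : Subgroup (GK K × GK K → (Kb K)ˣ) where
  carrier := {c | ∃ u : GK K → (Kb K)ˣ, Smooth1 K u ∧ ∀ g h, c (g, h) = g • u h * u g / u (g * h)}
  one_mem' := ⟨1, ⟨⊥, inferInstance, fun _ _ _ => rfl⟩, by intro g h; simp⟩
  mul_mem' := by
    rintro a b ⟨u, ⟨M, hM, h1⟩, h2⟩ ⟨v, ⟨M', hM', h1'⟩, h2'⟩
    refine ⟨u * v, ⟨M ⊔ M', inferInstance, ?_⟩, ?_⟩
    · intro g g' hg
      have e1 := h1 g g' (fun x hx => hg x (le_sup_left (a := M) hx))
      have e2 := h1' g g' (fun x hx => hg x (le_sup_right (a := M) hx))
      simp [e1, e2]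
    · intro g h
      simp only [Pi.mul_apply, smul_mul', h2, h2']
      rw [div_mul_div_comm]
      congr 1
      exact mul_mul_mul_comm _ _ _ _
  inv_mem' := by
    rintro a ⟨u, ⟨M, hM, h1⟩, h2⟩
    refine ⟨u⁻¹, ⟨M, hM, ?_⟩, ?_⟩
    · intro g g' hg
      simp [h1 g g' hg]
    · intro g h
      simp only [Pi.inv_apply, smul_inv', h2]
      rw [inv_div, div_eq_mul_inv, div_eq_mul_inv, inv_inv, mul_inv, mul_comm]

/-- every finite subextension lies in a finite normal one, stable under the Galois group -/
theorem exists_normal (M : IntermediateField K (Kb K)) [FiniteDimensional K M] :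
    ∃ M' : IntermediateField K (Kb K), M ≤ M' ∧ FiniteDimensional K M' ∧ Normal K M' :=
  ⟨IntermediateField.normalClosure K M (Kb K), IntermediateField.le_normalClosure M,
    inferInstance, inferInstance⟩

variable {K}

theorem Smooth1.normal {X : Type} {f : GK K → X} (hf : Smooth1 K f) :
    ∃ M : IntermediateField K (Kb K), FiniteDimensional K M ∧ Normal K M ∧
      ∀ g h, Agree K M g h → f g = f h := by
  obtain ⟨M, hM, h⟩ := hf
  obtain ⟨M', h1, h2, h3⟩ := exists_normal K M
  exact ⟨M', h2, h3, fun g g' hg => h g g' fun x hx => hg x (h1 hx)⟩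

theorem Smooth2.normal {X : Type} {f : GK K × GK K → X} (hf : Smooth2 K f) :
    ∃ M : IntermediateField K (Kb K), FiniteDimensional K M ∧ Normal K M ∧
      ∀ g g' h h', Agree K M g g' → Agree K M h h' → f (g, h) = f (g', h') := by
  obtain ⟨M, hM, h⟩ := hf
  obtain ⟨M', h1, h2, h3⟩ := exists_normal K M
  exact ⟨M', h2, h3, fun g g' k k' hg hk => h g g' k k' (fun x hx => hg x (h1 hx))
    fun x hx => hk x (h1 hx)⟩

/-- a finite normal subextension is stable under the Galois group -/
theorem normal_stable (M : IntermediateField K (Kb K)) [Normal K M] (g : GK K) {x : Kb K}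
    (hx : x ∈ M) : g x ∈ M := by
  have h : M.map (g : Kb K →ₐ[K] Kb K) = M :=
    IntermediateField.normal_iff_forall_map_eq.1 inferInstance _
  rw [← h]
  exact ⟨x, hx, rfl⟩

theorem Smooth1.finite_range {X : Type} {f : GK K → X} (hf : Smooth1 K f) :
    (Set.range f).Finite := by
  obtain ⟨M, hM, hN, h1⟩ := hf.normal
  classical
  let r : GK K →* (M ≃ₐ[K] M) := AlgEquiv.restrictNormalHom M
  have hfin : Finite (M ≃ₐ[K] M) := inferInstance
  have key : ∀ g h, r g = r h → f g = f h := by
    intro g h hgh
    apply h1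
    intro x hx
    have e := congrArg (fun t : M ≃ₐ[K] M => ((t ⟨x, hx⟩ : M) : Kb K)) hgh
    have e1 := AlgEquiv.restrictNormal_commutes g M ⟨x, hx⟩
    have e2 := AlgEquiv.restrictNormal_commutes h M ⟨x, hx⟩
    exact e1.symm.trans (e.trans e2)
  have : Set.range f ⊆ Set.range (fun t : Set.range r => f t.2.choose) := by
    rintro _ ⟨g, rfl⟩
    refine ⟨⟨r g, g, rfl⟩, ?_⟩
    apply key
    exact (⟨r g, g, rfl⟩ : Set.range r).2.choose_spec
  exact (Set.finite_range _).subset this

/-- finitely many elements lie in a finite subextension -/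
theorem exists_finite_sub (s : Set (Kb K)) (hs : s.Finite) :
    ∃ M : IntermediateField K (Kb K), FiniteDimensional K M ∧ s ⊆ M := by
  refine ⟨IntermediateField.adjoin K s, ?_, IntermediateField.subset_adjoin K s⟩
  have := hs.to_subtype
  exact IntermediateField.finiteDimensional_adjoin
    fun x _ => (Algebra.IsAlgebraic.isAlgebraic (R := K) x).isIntegral

theorem Smooth1.values {f : GK K → (Kb K)ˣ} (hf : Smooth1 K f) :
    ∃ M : IntermediateField K (Kb K), FiniteDimensional K M ∧ Normal K M ∧
      (∀ g h, Agree K M g h → f g = f h) ∧ ∀ g, (f g : Kb K) ∈ M := by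
  obtain ⟨M, hM, hN, h1⟩ := hf.normal
  obtain ⟨M1, hM1, h2⟩ := exists_finite_sub (K := K) ((fun u : (Kb K)ˣ => (u : Kb K)) '' Set.range f)
    (hf.finite_range.image _)
  obtain ⟨M', h3, h4, h5⟩ := exists_normal K (M ⊔ M1)
  refine ⟨M', h4, h5, fun g h hg => h1 g h fun x hx => hg x (h3 (le_sup_left (a := M) hx)), ?_⟩
  intro g
  exact h3 (le_sup_right (a := M) (h2 ⟨f g, ⟨g, rfl⟩, rfl⟩))

theorem B2_le_Z2 : B2 K ≤ Z2 K := by
  rintro c ⟨u, hu, h2⟩
  obtain ⟨M, hM, hN, h1, h3⟩ := hu.values
  refine ⟨⟨M, hM, ?_⟩, ?_⟩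
  · intro g g' h h' hg hh
    rw [h2, h2, h1 g g' hg, h1 h h' hh]
    have e1 : u (g * h) = u (g' * h') := by
      apply h1
      intro x hx
      have e := hh x hx
      have e' := hg (h' x) (normal_stable M h' hx)
      rw [AlgEquiv.mul_apply, AlgEquiv.mul_apply, e, e']
    have e2 : g • u h' = g' • u h' := by
      apply Units.ext
      rw [AlgEquiv.smul_units_def, AlgEquiv.smul_units_def]
      exact hg _ (h3 h')
    rw [e1, e2]
  · intro g h j
    simp only [h2, smul_div', smul_mul', mul_smul]
    rw [mul_assoc g h j]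
    generalize u (g * (h * j)) = a1
    generalize u (g * h) = a2
    generalize g • u (h * j) = a3
    generalize g • u h = a4
    generalize g • h • u j = a5
    generalize u g = a6
    simp only [div_eq_mul_inv]
    have e1 : a5 * a2 * a1⁻¹ * (a4 * a6 * a2⁻¹) = a5 * a4 * a6 * a1⁻¹ * (a2 * a2⁻¹) := by
      ac_rfl
    have e2 : a5 * a4 * a3⁻¹ * (a3 * a6 * a1⁻¹) = a5 * a4 * a6 * a1⁻¹ * (a3 * a3⁻¹) := by
      ac_rfl
    rw [e1, e2, mul_inv_cancel, mul_inv_cancel]

/-- the second smooth Galois cohomology group, written multiplicatively -/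
def H2 (K : Type) [Field K] : Type := Z2 K ⧸ (B2 K).subgroupOf (Z2 K)

noncomputable instance : CommGroup (H2 K) :=
  inferInstanceAs (CommGroup (Z2 K ⧸ (B2 K).subgroupOf (Z2 K)))

/-- the class of a smooth cocycle, as a homomorphism -/
noncomputable def clsHom : Z2 K →* H2 K := QuotientGroup.mk' ((B2 K).subgroupOf (Z2 K))

/-- the class of a smooth cocycle -/
noncomputable def cls (c : Z2 K) : H2 K := clsHom c

theorem cls_eq_one {c : Z2 K} : cls c = 1 ↔ c.1 ∈ B2 K := by
  have h : cls c = 1 ↔ c ∈ (B2 K).subgroupOf (Z2 K) := QuotientGroup.eq_one_iff c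
  rw [h, Subgroup.mem_subgroupOf]

theorem cls_one : cls (1 : Z2 K) = 1 := clsHom.map_one

theorem cls_mul (c d : Z2 K) : cls (c * d) = cls c * cls d := clsHom.map_mul c d

theorem cls_inv (c : Z2 K) : cls c⁻¹ = (cls c)⁻¹ := clsHom.map_inv c

theorem cls_div (c d : Z2 K) : cls (c / d) = cls c / cls d := clsHom.map_div c d

theorem cls_pow (c : Z2 K) (n : ℕ) : cls (c ^ n) = cls c ^ n := clsHom.map_pow c n

theorem cls_eq_cls {c d : Z2 K} : cls c = cls d ↔ c.1 / d.1 ∈ B2 K := by
  rw [← div_eq_one, ← cls_div]
  exact cls_eq_one (c := c / d)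

theorem cls_surj (x : H2 K) : ∃ c : Z2 K, cls c = x := QuotientGroup.mk_surjective x

end

section Res

variable (K : Type) [Field K] (K' : Type) [Field K'] [Algebra K K']

/-- a fixed embedding of algebraic closures -/
noncomputable def emb : Kb K →ₐ[K] Kb K' := IsAlgClosed.lift

/-- restriction of Galois automorphisms -/
noncomputable def resG : GK K' →* GK K :=
  letI : Algebra (Kb K) (Kb K') := (emb K K').toRingHom.toAlgebra
  haveI : IsScalarTower K (Kb K) (Kb K') := IsScalarTower.of_algebraMap_eq fun x =>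
    ((emb K K').commutes x).symm
  (AlgEquiv.restrictNormalHom (F := K) (K₁ := Kb K') (Kb K)).comp
    { toFun := fun g => g.restrictScalars K, map_one' := rfl, map_mul' := fun _ _ => rfl }

theorem emb_resG (g : GK K') (x : Kb K) : emb K K' (resG K K' g x) = g (emb K K' x) := by
  let _ : Algebra (Kb K) (Kb K') := (emb K K').toRingHom.toAlgebra
  have : IsScalarTower K (Kb K) (Kb K') := IsScalarTower.of_algebraMap_eq fun x =>
    ((emb K K').commutes x).symm
  exact AlgEquiv.restrictNormal_commutes (g.restrictScalars K) (Kb K) x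

/-- the embedding on units -/
noncomputable def embU : (Kb K)ˣ →* (Kb K')ˣ := Units.map (emb K K').toRingHom.toMonoidHom

theorem embU_smul (g : GK K') (x : (Kb K)ˣ) :
    embU K K' (resG K K' g • x) = g • embU K K' x := by
  apply Units.ext
  rw [AlgEquiv.smul_units_def, AlgEquiv.smul_units_def]
  exact emb_resG K K' g x

/-- the finite subextension generated by the image of a finite subextension -/
theorem exists_finite_image (M : IntermediateField K (Kb K)) [FiniteDimensional K M] :
    ∃ M' : IntermediateField K' (Kb K'), FiniteDimensional K' M' ∧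
      ∀ x ∈ M, emb K K' x ∈ M' := by
  obtain ⟨s, hs⟩ := (inferInstance : Module.Finite K M)
  obtain ⟨M', h1, h2⟩ := exists_finite_sub (K := K') ((fun x : M => emb K K' (x : Kb K)) '' s)
    (s.finite_toSet.image _)
  refine ⟨M', h1, ?_⟩
  intro x hx
  have hx' : (⟨x, hx⟩ : M) ∈ Submodule.span K (s : Set M) := by
    rw [hs]
    trivial
  have key : ∀ y : M, y ∈ Submodule.span K (s : Set M) → emb K K' (y : Kb K) ∈ M' := by
    intro y hy
    induction hy using Submodule.span_induction with
    | mem y hy => exact h2 ⟨y, hy, rfl⟩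
    | zero => simp
    | add y z _ _ hy hz =>
      have : emb K K' ((y + z : M) : Kb K) = emb K K' (y : Kb K) + emb K K' (z : Kb K) := by
        simp
      rw [this]
      exact M'.add_mem hy hz
    | smul a y _ hy =>
      have : emb K K' ((a • y : M) : Kb K) = algebraMap K' (Kb K') (algebraMap K K' a) *
          emb K K' (y : Kb K) := by
        rw [← IsScalarTower.algebraMap_apply K K' (Kb K')]
        simp [Algebra.smul_def]
      rw [this]
      exact M'.mul_mem (M'.algebraMap_mem _) hy
  exact key _ hx'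

theorem agree_res {M : IntermediateField K (Kb K)} {M' : IntermediateField K' (Kb K')}
    (h : ∀ x ∈ M, emb K K' x ∈ M') {g g' : GK K'} (hg : Agree K' M' g g') :
    Agree K M (resG K K' g) (resG K K' g') := by
  intro x hx
  have e : emb K K' (resG K K' g x) = emb K K' (resG K K' g' x) := by
    rw [emb_resG, emb_resG]
    exact hg _ (h x hx)
  exact (emb K K').toRingHom.injective e

/-- restriction of cochains -/
noncomputable def resC : (GK K × GK K → (Kb K)ˣ) →* (GK K' × GK K' → (Kb K')ˣ) where
  toFun c := fun p => embU K K' (c (resG K K' p.1, resG K K' p.2))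
  map_one' := by
    funext p
    simp
  map_mul' a b := by
    funext p
    simp

theorem resC_Z2 {c} (hc : c ∈ Z2 K) : resC K K' c ∈ Z2 K' := by
  obtain ⟨⟨M, hM, h1⟩, h2⟩ := hc
  obtain ⟨M', hM', h3⟩ := exists_finite_image K K' M
  refine ⟨⟨M', hM', ?_⟩, ?_⟩
  · intro g g' h h' hg hh
    have := h1 _ _ _ _ (agree_res K K' h3 hg) (agree_res K K' h3 hh)
    simp only [resC, MonoidHom.coe_mk, OneHom.coe_mk, this]
  · intro g h j
    have e := congrArg (embU K K') (h2 (resG K K' g) (resG K K' h) (resG K K' j))
    simp only [map_mul, embU_smul] at e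
    simpa only [resC, MonoidHom.coe_mk, OneHom.coe_mk, map_mul] using e

theorem resC_B2 {c} (hc : c ∈ B2 K) : resC K K' c ∈ B2 K' := by
  obtain ⟨u, ⟨M, hM, h1⟩, h2⟩ := hc
  obtain ⟨M', hM', h3⟩ := exists_finite_image K K' M
  refine ⟨fun g => embU K K' (u (resG K K' g)), ⟨M', hM', ?_⟩, ?_⟩
  · intro g g' hg
    have := h1 _ _ (agree_res K K' h3 hg)
    simp only [this]
  · intro g h
    have e := congrArg (embU K K') (h2 (resG K K' g) (resG K K' h))
    simp only [map_mul, map_div, embU_smul] at e
    simpa only [resC, MonoidHom.coe_mk, OneHom.coe_mk, map_mul] using e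

/-- restriction on smooth cocycles -/
noncomputable def resZ : Z2 K →* Z2 K' where
  toFun c := ⟨resC K K' c.1, resC_Z2 K K' c.2⟩
  map_one' := by
    apply Subtype.ext
    exact (resC K K').map_one
  map_mul' a b := by
    apply Subtype.ext
    exact (resC K K').map_mul a.1 b.1

/-- restriction on `H2` -/
noncomputable def res : H2 K →* H2 K' :=
  QuotientGroup.map ((B2 K).subgroupOf (Z2 K)) ((B2 K').subgroupOf (Z2 K')) (resZ K K')
    fun c hc => by
    rw [Subgroup.mem_comap, Subgroup.mem_subgroupOf]
    exact resC_B2 K K' (Subgroup.mem_subgroupOf.1 hc)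

theorem res_cls (c : Z2 K) : res K K' (cls c) = cls (resZ K K' c) := rfl

end Res

end BB37
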