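import Pool.Agent.Lib.MP_bb37eb_nt.Core.H2

/-! The class of a central simple algebra in `H2`. -/

namespace BB37

/-- `A` (a central simple `K`-algebra, `K` of characteristic zero) has class `c`: there are a
representation `rho : A → M_n(Kbar)` with `n^2 = dim A` and a smooth map `Phi : G_K → GL_n(Kbar)`
with `Phi_g g(Phi_h) = c(g,h) Phi_(gh)` and `Phi_g g(rho a) = rho(a) Phi_g`. -/
def HasClass (K : Type) [Field K] (A : Type) [Ring A] [Algebra K A] (c : Z2 K) : Prop :=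
  ∃ (n : ℕ) (ρ : A →ₐ[K] Matrix (Fin n) (Fin n) (Kb K))
    (Φ : GK K → Matrix (Fin n) (Fin n) (Kb K)),
    0 < n ∧ Module.finrank K A = n ^ 2 ∧ Smooth1 K Φ ∧ (∀ g, IsUnit (Φ g)) ∧
    (∀ g h, Φ g * (Φ h).map g = (c.1 (g, h) : Kb K) • Φ (g * h)) ∧
    ∀ g a, Φ g * (ρ a).map g = ρ a * Φ g

end BB37
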